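import Mathlib
import Pool.Agent.H48.Borcea5

set_option autoImplicit false

namespace Pool.Agent.Results.MP_0234e1_an.Asymptotic

open Polynomial

/-- The `p`-variance of the zeros of `F`, counted with multiplicity. -/
noncomputable def sigma (p : ℝ) (F : ℂ[X]) : ℝ :=
  ⨅ c : ℂ, (1 / (F.natDegree : ℝ) * (F.roots.map fun z => ‖z - c‖ ^ p).sum) ^ (1 / p)

/-- The one-sided Hausdorff distance from the zeros of `F` to the zeros of `F'`. -/
noncomputable def hdist (F : ℂ[X]) : ℝ :=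
  sSup ((fun z => Metric.infDist z {w | (derivative F).IsRoot w}) '' {z | F.IsRoot z})

theorem result : ∃ K : ℕ → ℝ, (∀ n, 1 ≤ K n) ∧ Filter.Tendsto K Filter.atTop (nhds 1) ∧
    ∀ p : ℝ, 1 ≤ p → ∀ F : ℂ[X], 2 ≤ F.natDegree → hdist F ≤ K F.natDegree * sigma p F := by
  obtain ⟨K, h1, h2, h3⟩ := Pool.Agent.H48.Borcea.exists_const
  refine ⟨K, h1, h2, fun p hp F hF => ?_⟩
  have hK : 0 < K F.natDegree := lt_of_lt_of_le one_pos (h1 _)
  have hF0 : F ≠ 0 := by rintro rfl; simp at hF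
  have ha : F.leadingCoeff ≠ 0 := leadingCoeff_ne_zero.2 hF0
  obtain ⟨z, hz⟩ := Pool.Agent.H48.Borcea.exists_fact F
  have hroots : F.roots = Finset.univ.val.map z := by
    conv_lhs => rw [hz]
    rw [roots_C_mul _ ha, Finset.prod_eq_multiset_prod,
      ← Function.comp_def (fun y => X - C y) z, ← Multiset.map_map, roots_multiset_prod_X_sub_C]
  have hn : (0 : ℝ) < F.natDegree := by exact_mod_cast (by omega : 0 < F.natDegree)
  rw [← div_le_iff₀' hK]
  refine le_ciInf fun c => ?_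
  rw [div_le_iff₀' hK]
  have hsum : (F.roots.map fun z => ‖z - c‖ ^ p).sum = ∑ j, ‖z j - c‖ ^ p := by
    rw [hroots, Multiset.map_map]; rfl
  have hm := Real.arith_mean_le_rpow_mean Finset.univ (fun _ => 1 / (F.natDegree : ℝ))
    (fun j => ‖z j - c‖) (fun _ _ => by positivity) (by simp [hn.ne']) (fun _ _ => norm_nonneg _) hp
  rw [← Finset.mul_sum, ← Finset.mul_sum, ← hsum] at hm
  refine le_trans (Real.sSup_le ?_ ?_) (mul_le_mul_of_nonneg_left hm hK.le)
  · rintro _ ⟨x, hx, rfl⟩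
    have hx' : x ∈ F.roots := (mem_roots hF0).2 hx
    rw [hroots, Multiset.mem_map] at hx'
    obtain ⟨k, -, rfl⟩ := hx'
    obtain ⟨w, hw, hw'⟩ := h3 _ hF z c k
    refine le_trans ?_ hw'
    rw [← dist_eq_norm]
    apply Metric.infDist_le_dist_of_mem
    change (derivative F).IsRoot w
    rw [hz, derivative_C_mul, IsRoot.def, eval_mul, hw.eq_zero, mul_zero]
  · have : 0 ≤ ∑ j, ‖z j - c‖ := Finset.sum_nonneg fun _ _ => norm_nonneg _
    positivity

end Pool.Agent.Results.MP_0234e1_an.Asymptotic
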